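import Pool.Agent.R912.U15

set_option autoImplicit false

/-!
# De Rham-Betti classes on the Kuga-Satake varieties of Hodge structures of K3 type with complex
# multiplication by a CM field of arbitrary degree

Let `A` be an abelian variety over the field `ℚ̄` of algebraic numbers, described by theta functions
(`AbVar`; nothing is assumed about periods). The de Rham-Betti classes on the powers of `A` are
considered as multilinear forms `φ` with rational values in `2m` variables in `H_1(A, ℚ)` (elements of
`H^1(A) ^ {⊗ 2m} (m)`). Let `𝔤` be the Lie algebra of the endomorphisms of `H_1(A, ℚ)` that annihilate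
all classes which are at the same time Hodge classes and de Rham-Betti classes (`InLie`). By the theorem
of Deligne all Hodge classes are de Rham-Betti classes, so that `𝔤` is the Lie algebra of the Hodge
group of `A`.

**Theorem.** Assume that `𝔤 ⊗ ℂ` is a sum of `k` Lie algebras `gl(W_σ)` with `W_σ` of even dimension,
which acts on `H_1(A, ℂ)` by tensor products of exterior powers
`⊗_σ (Λ^{i_σ} W_σ ⊗ det(W_σ)^{-1/2})` (`TypeUnitary A k`). Then all de Rham-Betti classes in
`H^1(A) ^ {⊗ 2m} (m)` which are annihilated by the centre of `𝔤` are Hodge classes, for all `m`.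

The hypothesis is expressed by creation and annihilation operators `a i`, `b i` of `k` colours: each
colour is used an even number of times, and `𝔤 ⊗ ℂ` is spanned by the endomorphisms
`a i * b j - δ i j / 2` for the pairs `i`, `j` of the same colour.

Example: Let `T` be a polarised Hodge structure of K3 type over `ℚ` (for example the transcendental
lattice of a K3 surface) whose field `E` of endomorphisms is a CM field of degree `2 k`, and assume that
the dimension `r` of `T` over `E` is even. By the theorem of Zarhin the Hodge group of `T` is the
unitary group `U_E(T)`, and `T ⊗ ℂ` is the orthogonal sum of the `k` spaces `W_σ ⊕ W_σ^∨`, with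
`dim W_σ = r`. The first homology of the Kuga-Satake variety `A` of `T` is the even Clifford algebra
`C⁺(T)`, with the Lie algebra of the Hodge group of `T` acting by left multiplication. Let `e_i` be a
basis of `⊕ W_σ` made of bases of the `W_σ`, let `f_i` be the dual basis of `⊕ W_σ^∨`, let `e` be a
vector with `e² = 1`, and let `a i`, `b i` be the endomorphisms `x ↦ e_i x e`, `x ↦ f_i x e` of
`C⁺(T ⊗ ℂ)`. Then `a i * b j - δ i j / 2` is the left multiplication by `(e_i f_j - f_j e_i) / 2`, and
the hypothesis is satisfied. The centre of `𝔤` consists of the elements `x` of `E` with `x̄ = - x`; for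
these the statement is a part of the period conjecture for abelian varieties of CM type, which is not
known. For `k = 1` the condition about the centre can be removed, see `UnitaryKugaSatake`.

Proof: by the theorem of Schneider and Lang the Lie algebra `𝔥` of the endomorphisms that annihilate
all de Rham-Betti classes acts semisimply on `H_1(A, ℚ)` and has the same commutant as `𝔤`. By
`R912.Hyp.main` it contains the derived algebra of `𝔤`. In comparison with one place one has to show in
addition that the parts of `𝔥` in the different `gl(W_σ)` are not linked, that is, that a root of `𝔥`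
cannot be the difference of two weights of `W_σ` and at the same time of two weights of `W_τ`: otherwise
the weight space for the weight next to the highest weight would be of dimension two in an irreducible
representation of `𝔥`, the tensor product of exterior powers of `W_σ` and of `W_τ`, and it is generated
by one root vector.
-/

open Module Matrix Pool.Agent.Y102 Pool.Agent.W516.DR Pool.Agent.H204R3.GP

noncomputable section

namespace Pool.Agent.Results.MP_bf54cf_ag.UnitaryManyPlaces

variable {g : ℕ} (A : AbVar g)

/-- The multilinear forms in `2m` variables in the rational homology. -/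
abbrev Form (m : ℕ) : Type := MultilinearMap ℚ (fun _ : Fin m × Fin 2 => A.H1) ℚ

/-- `φ` is a de Rham-Betti class in `H^1(A) ^ {⊗ 2m} (m)`. -/
def IsDRB {m : ℕ} (φ : Form A m) : Prop :=
  IsDeRhamBettiForm QBar A.dR (2 * Real.pi * Complex.I) m φ

/-- `φ` is a Hodge class in `H^1(A) ^ {⊗ 2m} (m)`. -/
def IsHodge {m : ℕ} (φ : Form A m) : Prop := IsHodgeTensor (A.per : A.H1 →+ (Fin g → ℂ)) φ

/-- The endomorphism `X` annihilates the form `φ` (as a derivation). -/
def Annihilates {m : ℕ} (X : Module.End ℚ A.H1) (φ : Form A m) : Prop :=
  ∀ v, ∑ k, φ (Function.update v k (X (v k))) = 0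

/-- `X` is in the Lie algebra `𝔤`: it annihilates all classes that are Hodge classes and
de Rham-Betti classes. -/
def InLie (X : Module.End ℚ A.H1) : Prop :=
  ∀ (m : ℕ) (φ : Form A m), IsHodge A φ → IsDRB A φ → Annihilates A X φ

/-- `X` is in the centre of the Lie algebra `𝔤`. -/
def InCentre (X : Module.End ℚ A.H1) : Prop := InLie A X ∧ ∀ Y, InLie A Y → Y * X = X * Y

/-- The algebra of the endomorphisms of `H_1(A, ℂ)`, as matrices for the basis of the lattice. -/
abbrev EndC (_ : AbVar g) : Type := Matrix (Fin (2 * g)) (Fin (2 * g)) ℂ

/-- The matrix of the extension of an endomorphism of `H_1(A, ℚ)` to `H_1(A, ℂ)`. -/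
def toC (X : Module.End ℚ A.H1) : EndC A := Matrix.of fun i j => (X (Pi.single j 1) i : ℂ)

/-- The complex Lie algebra `𝔤 ⊗ ℂ`, acting on `H_1(A, ℂ)`. -/
def lieC : Submodule ℂ (EndC A) := Submodule.span ℂ {Y | ∃ X, InLie A X ∧ Y = toC A X}

/-- The `a i` and the `b i` are creation and annihilation operators acting on `H_1(A, ℂ)`. -/
def Canonical {N : ℕ} (a b : Fin N → EndC A) : Prop :=
  (∀ i j, a i * a j = -(a j * a i)) ∧ (∀ i j, b i * b j = -(b j * b i)) ∧
    ∀ i j, a i * b j + b j * a i = if i = j then 1 else 0

/-- The Lie algebra `𝔤 ⊗ ℂ` is a sum of `k` Lie algebras `gl(W_σ)` with `W_σ` of even dimension, acting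
by the tensor products of the exterior powers, twisted by the square root of the determinant. -/
def TypeUnitary (k : ℕ) : Prop :=
  ∃ (N : ℕ) (a b : Fin N → EndC A) (c : Fin N → Fin k), Canonical A a b ∧
    (∀ σ, Even (Finset.univ.filter fun j => c j = σ).card) ∧
    lieC A = Submodule.span ℂ {Y | ∃ i j, c i = c j ∧
      Y = a i * b j - if i = j then (2⁻¹ : ℂ) • 1 else 0}

/-- **De Rham-Betti classes annihilated by the centre are Hodge classes.** -/
theorem result (g : ℕ) (A : AbVar g) (k : ℕ) (h : TypeUnitary A k) (m : ℕ) (φ : Form A m)
    (hφ : IsDRB A φ) (hz : ∀ X, InCentre A X → Annihilates A X φ) : IsHodge A φ := by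
  obtain ⟨N, a, b, c, ⟨aa, bb, ab⟩, hev, hl⟩ := h
  exact Pool.Agent.R912.hodge_unitary aa bb ab (fun i => hev (c i)) hl hφ hz

end Pool.Agent.Results.MP_bf54cf_ag.UnitaryManyPlaces
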